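import Pool.Agent.R713.Sys

/-!
# MP_105763_al: zero intersections between eigenspace sums for Leonard systems

For every Leonard system on a space `V` of dimension `d + 1`, every `r ≤ d` and every set `L` of at
most `d - r` indices, `(E^*_0 V + ... + E^*_r V) ∩ (sum of E_j V over j in L) = 0`.
-/

set_option autoImplicit false

namespace Pool.Agent.Results.MP_105763_al.ZeroIntersection

open Pool.Agent.R713 Module

theorem result {K V : Type*} [Field K] [AddCommGroup V] [Module K V] {d : ℕ}
    {A B : Module.End K V} {θ θs : Fin (d + 1) → K} {E Es : Fin (d + 1) → Module.End K V}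
    (h : LeonardSystem d A B θ θs E Es) (r : ℕ) (hr : r ≤ d) (L : Finset (Fin (d + 1)))
    (hL : L.card ≤ d - r) :
    (⨆ i : Fin (d + 1), ⨆ _ : (i : ℕ) ≤ r, LinearMap.range (Es i)) ⊓
      (⨆ j : Fin (d + 1), ⨆ _ : j ∈ L, LinearMap.range (E j)) = ⊥ := by
  rw [eq_bot_iff]
  rintro x ⟨hx1, hx2⟩
  have k1 : ∀ k : Fin (d + 1), r + 1 ≤ k → Es k x = 0 := by
    intro k hk
    have : (⨆ i : Fin (d + 1), ⨆ _ : (i : ℕ) ≤ r, LinearMap.range (Es i)) ≤
        LinearMap.ker (Es k) := by
      refine iSup₂_le fun i hi => ?_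
      rintro _ ⟨y, rfl⟩
      rw [LinearMap.mem_ker, h.primB.orth_apply, if_neg]
      rintro rfl
      omega
    exact this hx1
  have k2 : ∀ j ∈ Lᶜ, E j x = 0 := by
    intro j hj
    have : (⨆ j : Fin (d + 1), ⨆ _ : j ∈ L, LinearMap.range (E j)) ≤ LinearMap.ker (E j) := by
      refine iSup₂_le fun i hi => ?_
      rintro _ ⟨y, rfl⟩
      rw [LinearMap.mem_ker, h.primA.orth_apply, if_neg]
      rintro rfl
      exact (Finset.mem_compl.1 hj) hi
    exact this hx2
  rw [Submodule.mem_bot]
  refine h.few (r + 1) x k1 Lᶜ ?_ k2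
  rw [Finset.card_compl, Fintype.card_fin]
  omega

end Pool.Agent.Results.MP_105763_al.ZeroIntersection
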